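import Mathlib

set_option autoImplicit false

namespace Pool.Agent.Lib.MP_558536_al

universe u v

/-- Only finitely many elements conjugate `a` to `b` if the centralizer of `a` is finite. -/
lemma conj_finite {G : Type u} [Group G] {a : G} (h : {c : G | c * a = a * c}.Finite) (b : G) :
    {g : G | g * a * g⁻¹ = b}.Finite := by
  rcases Set.eq_empty_or_nonempty {g : G | g * a * g⁻¹ = b} with h0 | ⟨g0, hg0⟩
  · rw [h0]; exact Set.finite_empty
  · refine (h.image (fun c => g0 * c)).subset ?_
    intro g hg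
    simp only [Set.mem_ofPred_eq] at hg hg0
    refine ⟨g0⁻¹ * g, ?_, by group⟩
    simp only [Set.mem_ofPred_eq]
    have h1 : g * a = b * g := by rw [← hg]; group
    have h2 : g0⁻¹ * b = a * g0⁻¹ := by rw [← hg0]; group
    calc g0⁻¹ * g * a = g0⁻¹ * (g * a) := by group
      _ = (g0⁻¹ * b) * g := by rw [h1]; group
      _ = a * (g0⁻¹ * g) := by rw [h2]; group

lemma centralizer_conj_finite {G : Type u} [Group G] {a : G} (h : {c : G | c * a = a * c}.Finite)
    (g : G) : {c : G | c * (g * a * g⁻¹) = (g * a * g⁻¹) * c}.Finite := by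
  refine (h.image (fun c => g * c * g⁻¹)).subset ?_
  intro c hc
  simp only [Set.mem_ofPred_eq] at hc
  refine ⟨g⁻¹ * c * g, ?_, by group⟩
  simp only [Set.mem_ofPred_eq]
  calc g⁻¹ * c * g * a = g⁻¹ * (c * (g * a * g⁻¹)) * g := by group
    _ = g⁻¹ * ((g * a * g⁻¹) * c) * g := by rw [hc]
    _ = a * (g⁻¹ * c * g) := by group

lemma preimage_finite {N : Type u} [Group N] (K : Subgroup N) [K.Normal] (hK : (K : Set N).Finite)
    {s : Set (N ⧸ K)} (hs : s.Finite) : ((QuotientGroup.mk : N → N ⧸ K) ⁻¹' s).Finite := by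
  refine hs.preimage' ?_
  intro b _
  induction b using QuotientGroup.induction_on with
  | H g =>
    refine (hK.image (fun c => g * c)).subset ?_
    intro x hx
    simp only [Set.mem_preimage, Set.mem_singleton_iff] at hx
    rw [eq_comm, QuotientGroup.eq] at hx
    exact ⟨g⁻¹ * x, hx, by group⟩

/-- The centralizer of an element in the quotient by a finite normal subgroup. -/
lemma quotient_centralizer_finite {N : Type u} [Group N] (K : Subgroup N) [K.Normal]
    (hK : (K : Set N).Finite) {k : N} (h : {c : N | c * k = k * c}.Finite) :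
    {c : N ⧸ K | c * (k : N ⧸ K) = (k : N ⧸ K) * c}.Finite := by
  have h1 : (⋃ κ ∈ (K : Set N), {n : N | n * k * n⁻¹ = k * κ}).Finite :=
    hK.biUnion (fun κ _ => conj_finite h _)
  refine (h1.image (QuotientGroup.mk : N → N ⧸ K)).subset ?_
  intro c hc
  induction c using QuotientGroup.induction_on with
  | H n =>
    simp only [Set.mem_ofPred_eq] at hc
    have h2 : ((n * k : N) : N ⧸ K) = ((k * n : N) : N ⧸ K) := hc
    rw [eq_comm, QuotientGroup.eq] at h2
    have h3 := (inferInstance : K.Normal).conj_mem _ h2 n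
    refine ⟨n, ?_, rfl⟩
    simp only [Set.mem_iUnion, Set.mem_ofPred_eq]
    refine ⟨n * ((k * n)⁻¹ * (n * k)) * n⁻¹, h3, ?_⟩
    group

lemma torsion_quotient {N : Type u} [Group N] (K : Subgroup N) [K.Normal]
    (hN : ∀ x : N, IsOfFinOrder x) : ∀ x : N ⧸ K, IsOfFinOrder x := by
  intro x
  induction x using QuotientGroup.induction_on with
  | H n => exact (QuotientGroup.mk' K).isOfFinOrder (hN n)

lemma card_quotient_subgroup {N : Type u} [Group N] (K : Subgroup N) [K.Normal]
    (hK : (K : Set N).Finite) (hK1 : K ≠ ⊥) {B : ℕ}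
    (hB : ∀ F : Subgroup N, (F : Set N).Finite → Nat.card F ≤ B) (F : Subgroup (N ⧸ K))
    (hF : (F : Set (N ⧸ K)).Finite) : Nat.card F ≤ B - 1 := by
  classical
  have h1 : ((F.comap (QuotientGroup.mk' K) : Subgroup N) : Set N).Finite :=
    preimage_finite K hK hF
  have h2 := hB _ h1
  have h3 : Nat.card F < Nat.card (F.comap (QuotientGroup.mk' K)) := by
    have : Finite F := hF.to_subtype
    have : Finite (F.comap (QuotientGroup.mk' K)) := h1.to_subtype
    have := Fintype.ofFinite F
    have := Fintype.ofFinite (F.comap (QuotientGroup.mk' K))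
    rw [Nat.card_eq_fintype_card, Nat.card_eq_fintype_card]
    refine Fintype.card_lt_of_surjective_not_injective
      (fun x : F.comap (QuotientGroup.mk' K) => (⟨(QuotientGroup.mk' K) x.1, x.2⟩ : F)) ?_ ?_
    · rintro ⟨y, hy⟩
      obtain ⟨x, rfl⟩ := QuotientGroup.mk'_surjective K y
      exact ⟨⟨x, hy⟩, rfl⟩
    · intro hinj
      obtain ⟨⟨x, hx⟩, hx1⟩ := Subgroup.ne_bot_iff_exists_ne_one.1 hK1
      apply hx1
      have hx2 : ((x : N) : N ⧸ K) = 1 := (QuotientGroup.eq_one_iff x).2 hx
      have h4 : (⟨x, by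
          rw [Subgroup.mem_comap, QuotientGroup.mk'_apply, hx2]; exact F.one_mem⟩ :
          F.comap (QuotientGroup.mk' K)) = 1 := by
        apply hinj
        apply Subtype.ext
        simp only [QuotientGroup.mk'_apply, hx2, Subgroup.coe_one, QuotientGroup.mk_one]
      have h5 := congrArg Subtype.val h4
      exact Subtype.ext h5
  omega


/-! ### Involutions -/

/-- The midpoint of the involutions `k` and `j`. -/
noncomputable def mid {G : Type u} [Group G] (k j : G) : G :=
  k * (k * j) ^ ((orderOf (k * j) + 1) / 2)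

lemma inv_conj_pow {G : Type u} [Group G] {k j : G} (hk : k * k = 1) (hj : j * j = 1) (e : ℕ) :
    k * (k * j) ^ e * k = ((k * j) ^ e)⁻¹ := by
  have hk' : k⁻¹ = k := inv_eq_of_mul_eq_one_left hk
  have hj' : j⁻¹ = j := inv_eq_of_mul_eq_one_left hj
  have h1 : k * (k * j) * k⁻¹ = (k * j)⁻¹ := by
    rw [hk', mul_inv_rev, hj', hk', ← mul_assoc, hk, one_mul]
  have h2 : k * (k * j) ^ e * k⁻¹ = ((k * j) ^ e)⁻¹ := by
    rw [← conj_pow, h1, inv_pow]
  rwa [hk'] at h2

lemma mid_spec {G : Type u} [Group G] {k j : G} (hk : k * k = 1) (hj : j * j = 1)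
    (ho : Odd (orderOf (k * j))) :
    mid k j * mid k j = 1 ∧ mid k j * k * mid k j = j ∧ ∃ z : G, mid k j = z * k * z⁻¹ := by
  obtain ⟨t, ht⟩ := ho
  have he : (orderOf (k * j) + 1) / 2 = t + 1 := by omega
  have hyy : (k * j) ^ (t + 1) * (k * j) ^ (t + 1) = k * j := by
    rw [← pow_add, show t + 1 + (t + 1) = orderOf (k * j) + 1 by omega, pow_succ,
      pow_orderOf_eq_one, one_mul]
  have hinv := inv_conj_pow hk hj (t + 1)
  have hmid : mid k j = k * (k * j) ^ (t + 1) := by rw [mid, he]
  set y := (k * j) ^ (t + 1) with hy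
  refine ⟨?_, ?_, ?_⟩
  · rw [hmid]
    calc k * y * (k * y) = (k * y * k) * y := by group
      _ = 1 := by rw [hinv]; group
  · rw [hmid]
    calc k * y * k * (k * y) = k * y * (k * k) * y := by group
      _ = k * (y * y) := by rw [hk]; group
      _ = k * k * j := by rw [hyy]; group
      _ = j := by rw [hk, one_mul]
  · -- the square root of `y`
    have hinv2 := inv_conj_pow hk hj ((t + 1) * (t + 1))
    set z := (k * j) ^ ((t + 1) * (t + 1)) with hz
    have hzz : z * z = y := by
      rw [hz, ← pow_add, hy, show (t + 1) * (t + 1) + (t + 1) * (t + 1) =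
        orderOf (k * j) * (t + 1) + (t + 1) by rw [ht]; ring, pow_add, pow_mul,
        pow_orderOf_eq_one, one_pow, one_mul]
    refine ⟨z⁻¹, ?_⟩
    rw [hmid, inv_inv]
    have h3 : k * z * k * k = z⁻¹ * k := by rw [hinv2]
    have h4 : k * z = z⁻¹ * k := by
      rw [← h3]
      calc k * z = k * z * 1 := by group
        _ = k * z * k * k := by rw [← hk]; group
    calc k * y = k * z * z := by rw [← hzz]; group
      _ = z⁻¹ * k * z := by rw [h4]


lemma mem_normalizer_zpowers {G : Type u} [Group G] {z g : G}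
    (h : g * z * g⁻¹ = z ∨ g * z * g⁻¹ = z⁻¹) :
    g ∈ Subgroup.normalizer (Subgroup.zpowers z : Set G) := by
  rw [Subgroup.mem_normalizer_iff_map_conj_eq, MonoidHom.map_zpowers]
  have h1 : (MulAut.conj g).toMonoidHom z = g * z * g⁻¹ := rfl
  rcases h with h | h
  · change Subgroup.zpowers (g * z * g⁻¹) = _
    rw [h]
  · change Subgroup.zpowers (g * z * g⁻¹) = _
    rw [h, Subgroup.zpowers_inv]

/-- **Key theorem.** A periodic group whose finite subgroups have bounded order and which has an
involution with finite centralizer is finite. -/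
theorem finite_of_involution (B : ℕ) : ∀ (G : Type u) [Group G], (∀ x : G, IsOfFinOrder x) →
    (∀ F : Subgroup G, (F : Set G).Finite → Nat.card F ≤ B) →
    ∀ i : G, i ≠ 1 → i * i = 1 → {c : G | c * i = i * c}.Finite → Finite G := by
  induction B using Nat.strong_induction_on with
  | _ B IH =>
  intro G _ hG hB i hi1 hi2 hi
  have hB1 : 0 < B := by
    have h1 := hB ⊥ (by simp)
    have h2 : Nat.card (⊥ : Subgroup G) = 1 := Subgroup.card_bot
    omega
  -- normalizers of finite subgroups normalized by a good involution are finite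
  have star : ∀ K : Subgroup G, (K : Set G).Finite → K ≠ ⊥ →
      ∀ k ∈ Subgroup.normalizer (K : Set G), k ≠ 1 → k * k = 1 → {c : G | c * k = k * c}.Finite →
      (Subgroup.normalizer (K : Set G) : Set G).Finite := by
    intro K hK hK1 k hk hk1 hk2 hkc
    by_cases hkK : k ∈ K
    · refine (hK.biUnion (fun κ _ => conj_finite hkc κ)).subset ?_
      intro n hn
      simp only [Set.mem_iUnion]
      exact ⟨n * k * n⁻¹, (Subgroup.mem_normalizer_iff.1 hn k).1 hkK, rfl⟩
    · set N := Subgroup.normalizer (K : Set G) with hN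
      let K' : Subgroup N := K.subgroupOf N
      have hK'n : K'.Normal := Subgroup.normal_in_normalizer
      have hK' : (K' : Set N).Finite := by
        refine Set.Finite.of_finite_image (f := Subtype.val) (hK.subset ?_)
          Subtype.val_injective.injOn
        rintro _ ⟨x, hx, rfl⟩
        exact hx
      have hK'1 : K' ≠ ⊥ := by
        intro h
        apply hK1
        rw [Subgroup.subgroupOf_eq_bot] at h
        exact h.eq_bot_of_le Subgroup.le_normalizer
      have hNt : ∀ x : N, IsOfFinOrder x := fun x => by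
        obtain ⟨n, hn, hx⟩ := isOfFinOrder_iff_pow_eq_one.1 (hG x.1)
        exact isOfFinOrder_iff_pow_eq_one.2 ⟨n, hn, Subtype.ext (by simpa using hx)⟩
      have hNB : ∀ F : Subgroup N, (F : Set N).Finite → Nat.card F ≤ B := by
        intro F hF
        have h1 := hB (F.map N.subtype) (by
          rw [Subgroup.coe_map]; exact hF.image _)
        rwa [Nat.card_congr (F.equivMapOfInjective N.subtype N.subtype_injective).toEquiv]
      let k' : N := ⟨k, hk⟩
      have hk'c : {c : N | c * k' = k' * c}.Finite := by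
        refine Set.Finite.of_finite_image (f := Subtype.val) (hkc.subset ?_)
          Subtype.val_injective.injOn
        rintro _ ⟨x, hx, rfl⟩
        exact congrArg Subtype.val hx
      have hfin := IH (B - 1) (by omega) (N ⧸ K') (torsion_quotient K' hNt)
        (card_quotient_subgroup K' hK' hK'1 hNB) (k' : N ⧸ K') (by
          intro h
          rw [QuotientGroup.eq_one_iff] at h
          exact hkK h) (by
          rw [← QuotientGroup.mk_mul, show k' * k' = 1 from Subtype.ext hk2, QuotientGroup.mk_one])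
        (quotient_centralizer_finite K' hK' hk'c)
      have h2 := preimage_finite K' hK' (Set.toFinite (Set.univ : Set (N ⧸ K')))
      have h3 : (Set.univ : Set N).Finite := by simpa using h2
      have h4 := h3.image (Subtype.val : N → G)
      simpa using h4
  by_contra hinf
  have hGinf : (Set.univ : Set G).Infinite := by
    intro h
    exact hinf (Set.finite_univ_iff.1 h)
  -- the conjugacy class
  set I : Set G := {j | ∃ g : G, g * i * g⁻¹ = j} with hI
  have hIinf : I.Infinite := by
    intro h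
    apply hGinf
    refine (h.biUnion (fun j _ => conj_finite hi j)).subset ?_
    intro g _
    simp only [Set.mem_iUnion]
    exact ⟨g * i * g⁻¹, ⟨g, rfl⟩, rfl⟩
  have hI1 : ∀ j ∈ I, j ≠ 1 ∧ j * j = 1 ∧ {c : G | c * j = j * c}.Finite := by
    rintro _ ⟨g, rfl⟩
    refine ⟨?_, ?_, centralizer_conj_finite hi g⟩
    · intro h
      apply hi1
      rw [mul_inv_eq_one] at h
      exact mul_left_cancel (h.trans (mul_one g).symm)
    · calc g * i * g⁻¹ * (g * i * g⁻¹) = g * (i * i) * g⁻¹ := by group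
        _ = 1 := by rw [hi2]; group
  have hIconj : ∀ j ∈ I, ∀ g : G, g * j * g⁻¹ ∈ I := by
    rintro _ ⟨h, rfl⟩ g
    exact ⟨g * h, by group⟩
  -- step (a)
  have hbad : ∀ k ∈ I, {j ∈ I | Even (orderOf (k * j))}.Finite := by
    intro k hk
    obtain ⟨hk1, hk2, hkc⟩ := hI1 k hk
    have hcomm : ∀ j ∈ {j ∈ I | Even (orderOf (k * j))},
        (k * j) ^ (orderOf (k * j) / 2) ≠ 1 ∧
        (k * j) ^ (orderOf (k * j) / 2) * k = k * (k * j) ^ (orderOf (k * j) / 2) ∧
        (k * j) ^ (orderOf (k * j) / 2) * j = j * (k * j) ^ (orderOf (k * j) / 2) := by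
      rintro j ⟨hj, m, hm⟩
      obtain ⟨hj1, hj2, _⟩ := hI1 j hj
      have h0 : 0 < orderOf (k * j) := (hG (k * j)).orderOf_pos
      have hm2 : orderOf (k * j) / 2 = m := by omega
      rw [hm2]
      have hzz : (k * j) ^ m * (k * j) ^ m = 1 := by
        rw [← pow_add, ← hm, pow_orderOf_eq_one]
      have hinv : ((k * j) ^ m)⁻¹ = (k * j) ^ m := inv_eq_of_mul_eq_one_left hzz
      have hkk := inv_conj_pow hk2 hj2 m
      rw [hinv] at hkk
      have hkz : (k * j) ^ m * k = k * (k * j) ^ m := by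
        calc (k * j) ^ m * k = k * (k * j) ^ m * k * k := by rw [hkk]
          _ = k * (k * j) ^ m * (k * k) := by group
          _ = k * (k * j) ^ m := by rw [hk2, mul_one]
      refine ⟨?_, hkz, ?_⟩
      · exact pow_ne_one_of_lt_orderOf (by omega) (by omega)
      · have h1 : (k * j) ^ m * (k * j) = (k * j) * (k * j) ^ m := by
          rw [← pow_succ, ← pow_succ']
        have h2 : j = k * (k * j) := by rw [← mul_assoc, hk2, one_mul]
        calc (k * j) ^ m * j = (k * j) ^ m * (k * (k * j)) := by rw [← h2]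
          _ = (k * j) ^ m * k * (k * j) := by group
          _ = k * ((k * j) ^ m * (k * j)) := by rw [hkz]; group
          _ = (k * (k * j)) * (k * j) ^ m := by rw [h1]; simp only [mul_assoc]
          _ = j * (k * j) ^ m := by rw [← h2]
    refine (hkc.biUnion (t := fun z => {j ∈ {j ∈ I | Even (orderOf (k * j))} |
      (k * j) ^ (orderOf (k * j) / 2) = z}) ?_).subset ?_
    · intro z hz
      rcases Set.eq_empty_or_nonempty {j ∈ {j ∈ I | Even (orderOf (k * j))} |
        (k * j) ^ (orderOf (k * j) / 2) = z} with h0 | ⟨j0, hj0, hj0z⟩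
      · rw [h0]; exact Set.finite_empty
      · have hz1 : z ≠ 1 := by rw [← hj0z]; exact (hcomm j0 hj0).1
        have hfin := star (Subgroup.zpowers z) (by
            have := (hG z).finite_zpowers
            exact this) (by
            rw [Ne, Subgroup.zpowers_eq_bot]; exact hz1) k
          (mem_normalizer_zpowers (Or.inl (by
            simp only [Set.mem_ofPred_eq] at hz
            rw [← hz]; group))) hk1 hk2 hkc
        refine hfin.subset ?_
        rintro j ⟨hj, hjz⟩
        refine mem_normalizer_zpowers (Or.inl ?_)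
        have h2 := (hcomm j hj).2.2
        rw [hjz] at h2
        rw [← h2]; group
    · intro j hj
      simp only [Set.mem_iUnion]
      exact ⟨_, (hcomm j hj).2.1, hj, rfl⟩
  -- main step
  obtain ⟨k, hk, l, hl, hkl⟩ := hIinf.nontrivial
  obtain ⟨hk1, hk2, hkc⟩ := hI1 k hk
  obtain ⟨hl1, hl2, hlc⟩ := hI1 l hl
  have hJ : (I \ ({j ∈ I | Even (orderOf (k * j))} ∪ {j ∈ I | Even (orderOf (l * j))})).Infinite :=
    hIinf.sdiff ((hbad k hk).union (hbad l hl))
  apply hJ
  have hodd : ∀ j ∈ I \ ({j ∈ I | Even (orderOf (k * j))} ∪ {j ∈ I | Even (orderOf (l * j))}),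
      j ∈ I ∧ Odd (orderOf (k * j)) ∧ Odd (orderOf (l * j)) := by
    rintro j ⟨hj, hj2⟩
    rw [Set.mem_union, not_or] at hj2
    refine ⟨hj, ?_, ?_⟩
    · rw [← Nat.not_even_iff_odd]; exact fun h => hj2.1 ⟨hj, h⟩
    · rw [← Nat.not_even_iff_odd]; exact fun h => hj2.2 ⟨hj, h⟩
  have hT := conj_finite hkc l
  refine (hT.biUnion (t := fun g => {j ∈ I \ ({j ∈ I | Even (orderOf (k * j))} ∪
    {j ∈ I | Even (orderOf (l * j))}) | mid l j * mid k j = g}) ?_).subset ?_
  · intro g hg
    rcases Set.eq_empty_or_nonempty {j ∈ I \ ({j ∈ I | Even (orderOf (k * j))} ∪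
      {j ∈ I | Even (orderOf (l * j))}) | mid l j * mid k j = g} with h0 | ⟨j0, hj0, hj0g⟩
    · rw [h0]; exact Set.finite_empty
    · have hg1 : g ≠ 1 := by
        rintro rfl
        apply hkl
        simpa using hg
      have hnorm : ∀ j ∈ {j ∈ I \ ({j ∈ I | Even (orderOf (k * j))} ∪
          {j ∈ I | Even (orderOf (l * j))}) | mid l j * mid k j = g},
          mid l j ∈ Subgroup.normalizer (Subgroup.zpowers g : Set G) := by
        rintro j ⟨hj, hjg⟩
        obtain ⟨hjI, hko, hlo⟩ := hodd j hj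
        obtain ⟨a1, a2, -⟩ := mid_spec hk2 (hI1 j hjI).2.1 hko
        obtain ⟨b1, b2, -⟩ := mid_spec hl2 (hI1 j hjI).2.1 hlo
        have hb : (mid l j)⁻¹ = mid l j := inv_eq_of_mul_eq_one_left b1
        have ha : (mid k j)⁻¹ = mid k j := inv_eq_of_mul_eq_one_left a1
        refine mem_normalizer_zpowers (Or.inr ?_)
        rw [← hjg, hb, mul_inv_rev, ha, hb, ← mul_assoc, b1, one_mul]
      obtain ⟨hj0I, hk0, hl0⟩ := hodd j0 hj0
      obtain ⟨b1, b2, z, hz⟩ := mid_spec hl2 (hI1 j0 hj0I).2.1 hl0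
      obtain ⟨c1, c2, c3⟩ := hI1 (mid l j0) (by rw [hz]; exact hIconj l hl z)
      have hfin := star (Subgroup.zpowers g) (by
          have := (hG g).finite_zpowers
          exact this) (by
          rw [Ne, Subgroup.zpowers_eq_bot]; exact hg1) (mid l j0)
        (hnorm j0 ⟨hj0, hj0g⟩) c1 c2 c3
      refine Set.Finite.of_injOn (f := mid l) hnorm ?_ hfin
      rintro j ⟨hj, _⟩ j' ⟨hj', _⟩ hjj
      have e1 := (mid_spec hl2 (hI1 j (hodd j hj).1).2.1 (hodd j hj).2.2).2.1
      have e2 := (mid_spec hl2 (hI1 j' (hodd j' hj').1).2.1 (hodd j' hj').2.2).2.1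
      rw [← e1, ← e2, hjj]
  · intro j hj
    simp only [Set.mem_iUnion]
    refine ⟨mid l j * mid k j, ?_, hj, rfl⟩
    obtain ⟨hjI, hko, hlo⟩ := hodd j hj
    obtain ⟨a1, a2, -⟩ := mid_spec hk2 (hI1 j hjI).2.1 hko
    obtain ⟨b1, b2, -⟩ := mid_spec hl2 (hI1 j hjI).2.1 hlo
    have hb : (mid l j)⁻¹ = mid l j := inv_eq_of_mul_eq_one_left b1
    have ha : (mid k j)⁻¹ = mid k j := inv_eq_of_mul_eq_one_left a1
    simp only [Set.mem_ofPred_eq]
    rw [mul_inv_rev, ha, hb]
    calc mid l j * mid k j * k * (mid k j * mid l j)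
        = mid l j * (mid k j * k * mid k j) * mid l j := by group
      _ = mid l j * (mid l j * l * mid l j) * mid l j := by rw [a2, b2]
      _ = (mid l j * mid l j) * l * (mid l j * mid l j) := by group
      _ = l := by rw [b1]; group


/-! ### Finite 2-subgroups of infinite groups have infinite centralizers -/

lemma card_quotient_subgroup_le {N : Type u} [Group N] (K : Subgroup N) [K.Normal]
    (hK : (K : Set N).Finite) {B : ℕ}
    (hB : ∀ F : Subgroup N, (F : Set N).Finite → Nat.card F ≤ B) (F : Subgroup (N ⧸ K))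
    (hF : (F : Set (N ⧸ K)).Finite) : Nat.card F ≤ B := by
  have h1 : ((F.comap (QuotientGroup.mk' K) : Subgroup N) : Set N).Finite :=
    preimage_finite K hK hF
  refine le_trans ?_ (hB _ h1)
  have : Finite (F.comap (QuotientGroup.mk' K)) := h1.to_subtype
  refine Nat.card_le_card_of_surjective
    (fun x : F.comap (QuotientGroup.mk' K) => (⟨(QuotientGroup.mk' K) x.1, x.2⟩ : F)) ?_
  rintro ⟨y, hy⟩
  obtain ⟨x, rfl⟩ := QuotientGroup.mk'_surjective K y
  exact ⟨⟨x, hy⟩, rfl⟩

lemma normalizer_infinite_step {G : Type u} [Group G] (hG : ∀ x : G, IsOfFinOrder x) {B : ℕ}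
    (hB : ∀ F : Subgroup G, (F : Set G).Finite → Nat.card F ≤ B) (K S : Subgroup G)
    (hS : (S : Set G).Finite) (hKS : K ≤ S)
    (hN : (Subgroup.normalizer (K : Set G) : Set G).Infinite) (u : G)
    (huN : u ∈ Subgroup.normalizer (K : Set G)) (huK : u ∉ K) (huS : u ∈ S) (hu2 : u * u ∈ K)
    (hcov : ∀ s ∈ S, s ∈ K ∨ u⁻¹ * s ∈ K) :
    (Subgroup.normalizer (S : Set G) : Set G).Infinite := by
  have hK : (K : Set G).Finite := hS.subset hKS
  set N := Subgroup.normalizer (K : Set G) with hNdef
  let K' : Subgroup N := K.subgroupOf N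
  have hK'n : K'.Normal := Subgroup.normal_in_normalizer
  have hK' : (K' : Set N).Finite := by
    refine Set.Finite.of_finite_image (f := Subtype.val) (hK.subset ?_)
      Subtype.val_injective.injOn
    rintro _ ⟨x, hx, rfl⟩
    exact hx
  have hNt : ∀ x : N, IsOfFinOrder x := fun x => by
    obtain ⟨n, hn, hx⟩ := isOfFinOrder_iff_pow_eq_one.1 (hG x.1)
    exact isOfFinOrder_iff_pow_eq_one.2 ⟨n, hn, Subtype.ext (by simpa using hx)⟩
  have hNB : ∀ F : Subgroup N, (F : Set N).Finite → Nat.card F ≤ B := by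
    intro F hF
    have h1 := hB (F.map N.subtype) (by
      rw [Subgroup.coe_map]; exact hF.image _)
    rwa [Nat.card_congr (F.equivMapOfInjective N.subtype N.subtype_injective).toEquiv]
  let u' : N := ⟨u, huN⟩
  have hQinf : ¬ Finite (N ⧸ K') := by
    intro hfin
    have h2 := preimage_finite K' hK' (Set.toFinite (Set.univ : Set (N ⧸ K')))
    have h3 : (Set.univ : Set N).Finite := by simpa using h2
    have h4 := h3.image (Subtype.val : N → G)
    exact hN (by simpa using h4)
  have hC : {c : N ⧸ K' | c * (u' : N ⧸ K') = (u' : N ⧸ K') * c}.Infinite := by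
    intro hfin
    refine hQinf (finite_of_involution B (N ⧸ K') (torsion_quotient K' hNt)
      (card_quotient_subgroup_le K' hK' hNB) (u' : N ⧸ K') ?_ ?_ hfin)
    · intro h
      rw [QuotientGroup.eq_one_iff] at h
      exact huK h
    · rw [← QuotientGroup.mk_mul, QuotientGroup.eq_one_iff]
      exact hu2
  have hT : (QuotientGroup.mk ⁻¹' {c : N ⧸ K' | c * (u' : N ⧸ K') = (u' : N ⧸ K') * c} :
      Set N).Infinite := by
    intro h
    apply hC
    have h2 := h.image (QuotientGroup.mk : N → N ⧸ K')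
    rwa [Set.image_preimage_eq _ Quotient.mk_surjective] at h2
  have hT2 := hT.image (f := (Subtype.val : N → G)) Subtype.val_injective.injOn
  refine hT2.mono ?_
  rintro _ ⟨n, hn, rfl⟩
  have hn2 : ((n * u' : N) : N ⧸ K') = ((u' * n : N) : N ⧸ K') := hn
  rw [eq_comm, QuotientGroup.eq] at hn2
  have hn3 : (u * (n : G))⁻¹ * ((n : G) * u) ∈ K := hn2
  have hnK := Subgroup.mem_normalizer_iff.1 n.2
  -- `n u n⁻¹ = u * κ`
  have hn4 : (n : G) * u * (n : G)⁻¹ ∈ S := by
    have h5 := (hnK _).1 hn3
    have h6 : (n : G) * u * (n : G)⁻¹ = u * ((n : G) * ((u * (n : G))⁻¹ * ((n : G) * u)) *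
      (n : G)⁻¹) := by group
    rw [h6]
    exact S.mul_mem huS (hKS h5)
  have hle : S.map (MulAut.conj (n : G)).toMonoidHom ≤ S := by
    rintro _ ⟨s, hs, rfl⟩
    change (n : G) * s * (n : G)⁻¹ ∈ S
    rcases hcov s hs with h | h
    · exact hKS ((hnK s).1 h)
    · have h7 : (n : G) * s * (n : G)⁻¹ = ((n : G) * u * (n : G)⁻¹) *
        ((n : G) * (u⁻¹ * s) * (n : G)⁻¹) := by group
      rw [h7]
      exact S.mul_mem hn4 (hKS ((hnK _).1 h))
  have : Finite S := hS.to_subtype
  rw [SetLike.mem_coe, Subgroup.mem_normalizer_iff_map_conj_eq]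
  refine Subgroup.eq_of_le_of_card_ge hle ?_
  exact le_of_eq (Nat.card_congr (S.equivMapOfInjective (MulAut.conj (n : G)).toMonoidHom
    (MulAut.conj (n : G)).injective).toEquiv)

theorem normalizer_infinite {G : Type u} [Group G] (hG : ∀ x : G, IsOfFinOrder x) {B : ℕ}
    (hB : ∀ F : Subgroup G, (F : Set G).Finite → Nat.card F ≤ B) (hinf : ¬ Finite G) (n : ℕ) :
    ∀ S : Subgroup G, Nat.card S = 2 ^ n →
      (Subgroup.normalizer (S : Set G) : Set G).Infinite := by
  induction n with
  | zero =>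
    intro S hS
    have h1 : S = ⊥ := by
      rw [pow_zero] at hS
      exact Subgroup.card_eq_one.1 hS
    subst h1
    have h2 : Subgroup.normalizer ((⊥ : Subgroup G) : Set G) = ⊤ := by
      rw [Subgroup.normalizer_eq_top_iff]
      infer_instance
    rw [h2]
    intro h
    exact hinf (Set.finite_univ_iff.1 (by simpa using h))
  | succ n ih =>
    intro S hS
    have hSfin : Finite S := Nat.finite_of_card_ne_zero (by rw [hS]; positivity)
    obtain ⟨K0, hK0⟩ := Sylow.exists_subgroup_card_pow_prime (G := S) 2 (n := n)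
      (by rw [hS]; exact pow_dvd_pow 2 (Nat.le_succ n))
    have hidx : K0.index = 2 := by
      have h1 := K0.card_mul_index
      rw [hK0, hS, pow_succ] at h1
      exact Nat.eq_of_mul_eq_mul_left (by positivity) h1
    have hnorm : K0.Normal := Subgroup.normal_of_index_eq_two hidx
    have hne : K0 ≠ ⊤ := by
      intro h
      rw [h, Subgroup.index_top] at hidx
      omega
    obtain ⟨u, hu⟩ : ∃ u : S, u ∉ K0 := by
      by_contra hcon
      push Not at hcon
      exact hne (eq_top_iff.2 fun x _ => hcon x)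
    set K : Subgroup G := K0.map S.subtype with hK
    have hmemK : ∀ x : S, (x : G) ∈ K ↔ x ∈ K0 := by
      intro x
      rw [hK, Subgroup.mem_map]
      constructor
      · rintro ⟨y, hy, hyx⟩
        have : y = x := Subtype.ext hyx
        rwa [← this]
      · intro h
        exact ⟨x, h, rfl⟩
    have hKS : K ≤ S := by
      rintro _ ⟨y, _, rfl⟩
      exact y.2
    have hKcard : Nat.card K = 2 ^ n := by
      rw [← hK0]
      exact (Nat.card_congr (K0.equivMapOfInjective S.subtype S.subtype_injective).toEquiv).symm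
    have hnormS : ∀ s : S, (s : G) ∈ Subgroup.normalizer (K : Set G) := by
      intro s
      rw [Subgroup.mem_normalizer_iff]
      intro h
      constructor
      · intro hh
        have hhS := hKS hh
        have h1 := (hmemK ⟨h, hhS⟩).1 hh
        exact (hmemK (s * ⟨h, hhS⟩ * s⁻¹)).2 (hnorm.conj_mem _ h1 s)
      · intro hh
        have hhS := hKS hh
        have h1 := (hmemK ⟨_, hhS⟩).1 hh
        have h2 := (hmemK _).2 (hnorm.conj_mem _ h1 s⁻¹)
        have h3 : ((s⁻¹ * ⟨(s : G) * h * (s : G)⁻¹, hhS⟩ * s⁻¹⁻¹ : S) : G) = h := by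
          simp only [Subgroup.coe_mul, inv_inv, InvMemClass.coe_inv]
          group
        rwa [h3] at h2
    refine normalizer_infinite_step hG hB K S (Set.toFinite _) hKS (ih K hKcard) (u : G)
      (hnormS u) (fun h => hu ((hmemK u).1 h)) u.2 ?_ ?_
    · exact (hmemK (u * u)).2 (Subgroup.mul_self_mem_of_index_two hidx u)
    · intro s hs
      by_cases h : (⟨s, hs⟩ : S) ∈ K0
      · left; exact (hmemK ⟨s, hs⟩).2 h
      · right
        have h1 : u⁻¹ * ⟨s, hs⟩ ∈ K0 := by
          rw [Subgroup.mul_mem_iff_of_index_two hidx, inv_mem_iff]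
          exact iff_of_false hu h
        exact (hmemK (u⁻¹ * ⟨s, hs⟩)).2 h1

/-- **Finite 2-subgroups have infinite centralizers** in infinite periodic groups whose finite
subgroups have bounded order. -/
theorem centralizer_infinite {G : Type u} [Group G] (hG : ∀ x : G, IsOfFinOrder x) {B : ℕ}
    (hB : ∀ F : Subgroup G, (F : Set G).Finite → Nat.card F ≤ B) (hinf : ¬ Finite G) {n : ℕ}
    (S : Subgroup G) (hS : Nat.card S = 2 ^ n) :
    (Subgroup.centralizer (S : Set G) : Set G).Infinite := by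
  intro hfin
  apply normalizer_infinite hG hB hinf n S hS
  have hSfin : Finite S := Nat.finite_of_card_ne_zero (by rw [hS]; positivity)
  let f : G → (S → G) := fun g s => g * s * g⁻¹
  have h1 : {φ : S → G | ∀ s, φ s ∈ (S : Set G)}.Finite := by
    have := Set.Finite.pi' (ι := S) (t := fun _ => (S : Set G)) (fun _ => Set.toFinite _)
    exact this
  have h2 : (f ⁻¹' {φ : S → G | ∀ s, φ s ∈ (S : Set G)}).Finite := by
    refine h1.preimage' ?_
    intro φ _
    rcases Set.eq_empty_or_nonempty (f ⁻¹' {φ}) with h0 | ⟨g0, hg0⟩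
    · rw [h0]; exact Set.finite_empty
    · refine (hfin.image (fun c => g0 * c)).subset ?_
      intro g hg
      refine ⟨g0⁻¹ * g, ?_, by group⟩
      rw [SetLike.mem_coe, Subgroup.mem_centralizer_iff]
      intro s hs
      have e1 : f g = φ := hg
      have e2 : f g0 = φ := hg0
      have e3 : g * s * g⁻¹ = g0 * s * g0⁻¹ := congrFun (e1.trans e2.symm) ⟨s, hs⟩
      calc s * (g0⁻¹ * g) = g0⁻¹ * (g0 * s * g0⁻¹) * g := by group
        _ = g0⁻¹ * (g * s * g⁻¹) * g := by rw [e3]
        _ = g0⁻¹ * g * s := by group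
  refine h2.subset ?_
  intro g hg s
  exact (Subgroup.mem_normalizer_iff.1 hg s.1).1 s.2

/-! ### Two lemmas of Burnside type -/

/-- A periodic group in which every element commutes with all its conjugates, and whose finite
subgroups have bounded order, is finite. -/
theorem engel_finite (B : ℕ) : ∀ (G : Type u) [Group G], (∀ x : G, IsOfFinOrder x) →
    (∀ x y : G, x * (y⁻¹ * x * y) = (y⁻¹ * x * y) * x) →
    (∀ F : Subgroup G, (F : Set G).Finite → Nat.card F ≤ B) → Finite G := by
  induction B using Nat.strong_induction_on with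
  | _ B IH =>
  intro G _ hG h3 hB
  have hB1 : 0 < B := by
    have h1 := hB ⊥ (by simp)
    have h2 : Nat.card (⊥ : Subgroup G) = 1 := Subgroup.card_bot
    omega
  by_contra hinf
  have hinf' : Infinite G := not_finite_iff_infinite.1 hinf
  obtain ⟨x, hx⟩ := exists_ne (1 : G)
  set A := Subgroup.normalClosure ({x} : Set G) with hA
  have hcomm : ∀ a ∈ Group.conjugatesOfSet ({x} : Set G),
      ∀ b ∈ Group.conjugatesOfSet ({x} : Set G), a * b = b * a := by
    intro a ha b hb
    rw [Group.mem_conjugatesOfSet_iff] at ha hb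
    obtain ⟨a0, ha0, ha⟩ := ha
    obtain ⟨b0, hb0, hb⟩ := hb
    rw [Set.mem_singleton_iff.1 ha0] at ha
    rw [Set.mem_singleton_iff.1 hb0] at hb
    obtain ⟨g, rfl⟩ := isConj_iff.1 ha
    obtain ⟨h, rfl⟩ := isConj_iff.1 hb
    have key := h3 (g * x * g⁻¹) (g * h⁻¹)
    have e : (g * h⁻¹)⁻¹ * (g * x * g⁻¹) * (g * h⁻¹) = h * x * h⁻¹ := by group
    rwa [e] at key
  have hAcomm : ∀ a ∈ A, ∀ b ∈ A, a * b = b * a := by
    have h1 := Subgroup.isMulCommutative_closure hcomm
    intro a ha b hb
    exact congrArg Subtype.val (h1.is_comm.comm (⟨a, ha⟩ : Subgroup.closure _) ⟨b, hb⟩)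
  have hAfin : (A : Set G).Finite := by
    by_contra hAinf
    obtain ⟨T, hTA, hT⟩ := Set.Infinite.exists_subset_card_eq hAinf (B + 1)
    have h1 : IsMulCommutative (Subgroup.closure (T : Set G)) :=
      Subgroup.isMulCommutative_closure (fun a ha b hb => hAcomm a (hTA ha) b (hTA hb))
    have h2 : Finite (Subgroup.closure (T : Set G)) := by
      let _ : CommGroup (Subgroup.closure (T : Set G)) :=
        { (inferInstance : Group (Subgroup.closure (T : Set G))) with
          mul_comm := fun a b => h1.is_comm.comm a b }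
      refine CommGroup.finite_of_fg_isMulTorsion (Subgroup.closure (T : Set G)) ?_
      intro y
      obtain ⟨n, hn, hx⟩ := isOfFinOrder_iff_pow_eq_one.1 (hG y.1)
      exact isOfFinOrder_iff_pow_eq_one.2 ⟨n, hn, Subtype.ext (by simpa using hx)⟩
    have h4 := hB (Subgroup.closure (T : Set G)) (Set.toFinite _)
    have h5 : T.card ≤ Nat.card (Subgroup.closure (T : Set G)) := by
      have h6 : (T : Set G) ⊆ Subgroup.closure (T : Set G) := Subgroup.subset_closure
      have h7 := Set.ncard_le_ncard h6 (Set.toFinite _)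
      rw [Set.ncard_coe_finset] at h7
      exact h7
    omega
  have hA1 : A ≠ ⊥ := by
    intro h
    apply hx
    have h1 : x ∈ A := Subgroup.subset_normalClosure rfl
    rw [h] at h1
    exact Subgroup.mem_bot.1 h1
  have hQ := IH (B - 1) (by omega) (G ⧸ A) (torsion_quotient A hG) (fun q r => by
    induction q using QuotientGroup.induction_on with
    | H g =>
      induction r using QuotientGroup.induction_on with
      | H h =>
        have := congrArg (QuotientGroup.mk : G → G ⧸ A) (h3 g h)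
        simpa only [QuotientGroup.mk_mul, QuotientGroup.mk_inv] using this)
    (card_quotient_subgroup A hAfin hA1 hB)
  have h2 := preimage_finite A hAfin (Set.toFinite (Set.univ : Set (G ⧸ A)))
  exact hinf (Set.finite_univ_iff.1 (by simpa using h2))

/-- In a group with an endomorphism `σ` such that `r σ(r) σ²(r) = 1` for all `r`, every element
commutes with all its conjugates. -/
theorem splitting_comm {R : Type u} [Group R] (σ : R →* R)
    (hN : ∀ r : R, r * σ r * σ (σ r) = 1) (x y : R) :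
    x * (y⁻¹ * x * y) = (y⁻¹ * x * y) * x := by
  have hss : ∀ r : R, σ (σ r) = (r * σ r)⁻¹ := fun r => eq_inv_of_mul_eq_one_right (hN r)
  have hss' : ∀ r : R, σ (σ r) = (σ r * r)⁻¹ := fun r => by
    have h1 := hN r⁻¹
    rw [map_inv, map_inv] at h1
    have h2 : (σ r * r)⁻¹ * (σ (σ r))⁻¹ = 1 := by
      rw [← h1]; group
    exact (eq_of_mul_inv_eq_one h2).symm
  have hc : ∀ r : R, r * σ r = σ r * r := fun r => inv_injective ((hss r).symm.trans (hss' r))
  have hs3 : ∀ r : R, σ r * σ (σ r) = r⁻¹ := fun r => by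
    rw [hss r, mul_inv_rev, mul_inv_cancel_left]
  have hsss : ∀ r : R, σ (σ (σ r)) = r := fun r => by
    rw [hss (σ r), hs3, inv_inv]
  have hI : ∀ a b : R, a * b * σ a * σ b = b * σ b * (a * σ a) := fun a b => by
    have h1 := hN (a * b)
    rw [map_mul, map_mul, hss a, hss b] at h1
    have h2 : a * b * σ a * σ b * (b * σ b * (a * σ a))⁻¹ = 1 := by
      rw [← h1]; group
    exact eq_of_mul_inv_eq_one h2
  have hV : ∀ a b : R, σ a * σ b * a * b = b * σ b * (a * σ a) := fun a b => by
    rw [← hI a b]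
    have h1 := hc (a * b)
    rw [map_mul] at h1
    calc σ a * σ b * a * b = σ a * σ b * (a * b) := by group
      _ = a * b * σ a * σ b := by rw [← h1]; group
  -- every conjugate of `a` commutes with `a σ(a)`
  have hK : ∀ a z : R, Commute (z⁻¹ * a * z) (a * σ a) := by
    intro a z
    obtain ⟨b, rfl⟩ : ∃ b, z = σ b := ⟨σ (σ z), (hsss z).symm⟩
    have e2 : (σ b)⁻¹ * a * σ b * (b * σ a * b⁻¹) = a * σ a := by
      have h1 := hI a (b * σ b)
      rw [map_mul, hs3] at h1
      calc (σ b)⁻¹ * a * σ b * (b * σ a * b⁻¹) = (σ b)⁻¹ * (a * (σ b * b) * σ a * b⁻¹) := by group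
        _ = (σ b)⁻¹ * (b * σ b * b⁻¹ * (a * σ a)) := by rw [← hc b, h1]
        _ = (σ b)⁻¹ * (σ b * b * b⁻¹ * (a * σ a)) := by rw [hc b]
        _ = a * σ a := by group
    have e1 : b * σ a * b⁻¹ * ((σ b)⁻¹ * a * σ b) = a * σ a := by
      have h1 := hV a (σ b)
      rw [hs3, hss' b] at h1
      calc b * σ a * b⁻¹ * ((σ b)⁻¹ * a * σ b) = b * (σ a * (σ b * b)⁻¹ * a * σ b) := by group
        _ = a * σ a := by rw [h1]; group
    have h3 : Commute ((σ b)⁻¹ * a * σ b) (b * σ a * b⁻¹) := by
      rw [commute_iff_eq, e2, e1]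
    rw [← e2]
    exact (Commute.refl _).mul_right h3
  have hA : ∀ z : R, Commute (z⁻¹ * x * z) (σ x) := by
    intro z
    have h1 := hK (σ x) z⁻¹
    rw [hs3] at h1
    have h2 : Commute (z⁻¹⁻¹ * σ x * z⁻¹) x := Commute.inv_right_iff.1 h1
    rw [commute_iff_eq] at h2 ⊢
    calc z⁻¹ * x * z * σ x = z⁻¹ * (x * (z⁻¹⁻¹ * σ x * z⁻¹)) * z := by group
      _ = z⁻¹ * ((z⁻¹⁻¹ * σ x * z⁻¹) * x) * z := by rw [h2]
      _ = σ x * (z⁻¹ * x * z) := by group
  have h5 : Commute (y⁻¹ * x * y) (x * σ x * (σ x)⁻¹) :=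
    (hK x y).mul_right (hA y).inv_right
  rw [mul_inv_cancel_right] at h5
  exact h5.symm

/-! ### The main theorem -/

/-- Centralizers of 2-subgroups on which cubes of a coset fall into the subgroup. -/
theorem finite_of_cubes {G : Type u} [Group G] (hG : ∀ x : G, IsOfFinOrder x) {B : ℕ}
    (hB : ∀ F : Subgroup G, (F : Set G).Finite → Nat.card F ≤ B) {n : ℕ}
    (T : Subgroup G) (hT : Nat.card T = 2 ^ n) (w : G) (hw : ∀ t ∈ T, w * t * w⁻¹ ∈ T)
    (hcube : ∀ c : G, (∀ t ∈ T, t * c = c * t) → (c * w) ^ 3 ∈ T) : Finite G := by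
  by_contra hinf
  have hTf : Finite T := Nat.finite_of_card_ne_zero (by rw [hT]; positivity)
  set C := Subgroup.centralizer (T : Set G) with hC
  have hCinf : (C : Set G).Infinite := centralizer_infinite hG hB hinf T hT
  have hmemC : ∀ c : C, ∀ s ∈ T, s * (c : G) = c * s := fun c s hs =>
    Subgroup.mem_centralizer_iff.1 c.2 s hs
  let K : Subgroup C := T.subgroupOf C
  have hKn : K.Normal := by
    refine ⟨fun k hk c => ?_⟩
    have h1 : c * k * c⁻¹ = k := by
      apply Subtype.ext
      have := hmemC c k.1 hk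
      simp only [Subgroup.coe_mul, InvMemClass.coe_inv]
      rw [← this]; group
    rwa [h1]
  have hKf : (K : Set C).Finite := by
    refine Set.Finite.of_finite_image (f := Subtype.val) ((Set.toFinite (T : Set G)).subset ?_)
      Subtype.val_injective.injOn
    rintro _ ⟨x, hx, rfl⟩
    exact hx
  have hCB : ∀ F : Subgroup C, (F : Set C).Finite → Nat.card F ≤ B := by
    intro F hF
    have h1 := hB (F.map C.subtype) (by
      rw [Subgroup.coe_map]; exact hF.image _)
    rwa [Nat.card_congr (F.equivMapOfInjective C.subtype C.subtype_injective).toEquiv]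
  have hCt : ∀ x : C, IsOfFinOrder x := fun x => by
    obtain ⟨n, hn, hx⟩ := isOfFinOrder_iff_pow_eq_one.1 (hG x.1)
    exact isOfFinOrder_iff_pow_eq_one.2 ⟨n, hn, Subtype.ext (by simpa using hx)⟩
  -- conjugation by `w⁻¹` also preserves `T`
  have hw' : ∀ t ∈ T, w⁻¹ * t * w ∈ T := by
    have hmap : T.map (MulAut.conj w).toMonoidHom = T := by
      refine Subgroup.eq_of_le_of_card_ge ?_ ?_
      · rintro _ ⟨t, ht, rfl⟩
        exact hw t ht
      · exact le_of_eq (Nat.card_congr (T.equivMapOfInjective (MulAut.conj w).toMonoidHom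
          (MulAut.conj w).injective).toEquiv)
    intro t ht
    rw [← hmap] at ht
    obtain ⟨s, hs, hst⟩ := ht
    have hst' : w * s * w⁻¹ = t := hst
    rw [← hst']
    have : w⁻¹ * (w * s * w⁻¹) * w = s := by group
    rw [this]
    exact hs
  let φ : C →* C :=
    { toFun := fun c => ⟨w * c * w⁻¹, by
        refine Subgroup.mem_centralizer_iff.2 ?_
        intro t ht
        have h1 := hmemC c _ (hw' t ht)
        calc t * (w * c * w⁻¹) = w * ((w⁻¹ * t * w) * c) * w⁻¹ := by group
          _ = w * (c * (w⁻¹ * t * w)) * w⁻¹ := by rw [h1]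
          _ = w * c * w⁻¹ * t := by group⟩
      map_one' := by
        apply Subtype.ext
        simp
      map_mul' := fun a b => by
        apply Subtype.ext
        simp only [Subgroup.coe_mul]
        group }
  have hφK : K ≤ K.comap φ := by
    intro k hk
    rw [Subgroup.mem_comap]
    exact hw _ hk
  let σ : C ⧸ K →* C ⧸ K := QuotientGroup.map K K φ hφK
  have hw3 : w ^ 3 ∈ T := by
    have := hcube 1 (fun t _ => by simp)
    rwa [one_mul] at this
  have hσ : ∀ r : C ⧸ K, r * σ r * σ (σ r) = 1 := by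
    intro r
    induction r using QuotientGroup.induction_on with
    | H c =>
      have e1 : σ (c : C ⧸ K) = ((φ c : C) : C ⧸ K) := rfl
      have e2 : σ (σ (c : C ⧸ K)) = ((φ (φ c) : C) : C ⧸ K) := rfl
      rw [e2, e1, ← QuotientGroup.mk_mul, ← QuotientGroup.mk_mul, QuotientGroup.eq_one_iff]
      have h1 := T.mul_mem (hcube c.1 (hmemC c)) (T.inv_mem hw3)
      have h2 : ((c : G) * w) ^ 3 * (w ^ 3)⁻¹ = ((c * φ c * φ (φ c) : C) : G) := by
        change ((c : G) * w) ^ 3 * (w ^ 3)⁻¹ =
          (c : G) * (w * c * w⁻¹) * (w * (w * c * w⁻¹) * w⁻¹)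
        rw [pow_three', pow_three']
        group
      rw [h2] at h1
      exact h1
  have hQ : Finite (C ⧸ K) :=
    engel_finite B (C ⧸ K) (torsion_quotient K hCt) (splitting_comm σ hσ)
      (card_quotient_subgroup_le K hKf hCB)
  have h2 := preimage_finite K hKf (Set.toFinite (Set.univ : Set (C ⧸ K)))
  have h3 : (Set.univ : Set C).Finite := by simpa using h2
  have h4 := h3.image (Subtype.val : C → G)
  exact hCinf (by simpa using h4)

/-- A finite subgroup and an element of finite order normalizing it generate a finite subgroup. -/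
lemma exists_finite_sup {G : Type u} [Group G] (T : Subgroup G) [Finite T] (y : G)
    (hy : IsOfFinOrder y) (hyN : y ∈ Subgroup.normalizer (T : Set G)) :
    ∃ F : Subgroup G, Finite F ∧ T ≤ F ∧ y ∈ F := by
  set N := Subgroup.normalizer (T : Set G) with hN
  let T' : Subgroup N := T.subgroupOf N
  have hT'n : T'.Normal := Subgroup.normal_in_normalizer
  have hT'f : (T' : Set N).Finite := by
    refine Set.Finite.of_finite_image (f := Subtype.val) ((Set.toFinite (T : Set G)).subset ?_)
      Subtype.val_injective.injOn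
    rintro _ ⟨x, hx, rfl⟩
    exact hx
  let y' : N := ⟨y, hyN⟩
  have hy'f : (Subgroup.zpowers y' : Set N).Finite := by
    obtain ⟨n, hn, hx⟩ := isOfFinOrder_iff_pow_eq_one.1 hy
    have h1 : IsOfFinOrder y' :=
      isOfFinOrder_iff_pow_eq_one.2 ⟨n, hn, Subtype.ext (by simpa [y'] using hx)⟩
    have := h1.finite_zpowers
    exact this
  have hF' : ((T' ⊔ Subgroup.zpowers y' : Subgroup N) : Set N).Finite := by
    rw [Subgroup.normal_mul]
    exact hT'f.mul hy'f
  refine ⟨(T' ⊔ Subgroup.zpowers y').map N.subtype, ?_, ?_, ?_⟩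
  · have : (((T' ⊔ Subgroup.zpowers y').map N.subtype : Subgroup G) : Set G).Finite := by
      rw [Subgroup.coe_map]; exact hF'.image _
    exact this.to_subtype
  · intro t ht
    exact ⟨⟨t, Subgroup.le_normalizer ht⟩, Subgroup.mem_sup_left ht, rfl⟩
  · exact ⟨y', Subgroup.mem_sup_right (Subgroup.mem_zpowers y'), rfl⟩

lemma mem_normalizer_of_conj_mem {G : Type u} [Group G] (T : Subgroup G) [Finite T] (y : G)
    (h : ∀ t ∈ T, y * t * y⁻¹ ∈ T) : y ∈ Subgroup.normalizer (T : Set G) := by
  rw [Subgroup.mem_normalizer_iff_map_conj_eq]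
  refine Subgroup.eq_of_le_of_card_ge ?_ ?_
  · rintro _ ⟨t, ht, rfl⟩
    exact h t ht
  · exact le_of_eq (Nat.card_congr (T.equivMapOfInjective (MulAut.conj y).toMonoidHom
      (MulAut.conj y).injective).toEquiv)

lemma conj_mem_of_commute {G : Type u} [Group G] (T : Subgroup G) {w c : G}
    (hw : ∀ t ∈ T, w * t * w⁻¹ ∈ T) (hc : ∀ t ∈ T, t * c = c * t) :
    ∀ t ∈ T, c * w * t * (c * w)⁻¹ ∈ T := by
  intro t ht
  have h1 := hw t ht
  have h2 := hc _ h1
  have h3 : c * w * t * (c * w)⁻¹ = c * (w * t * w⁻¹) * c⁻¹ := by group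
  rw [h3, ← h2, mul_inv_cancel_right]
  exact h1

/-- The same with the cubes of the coset only required to be 2-elements. -/
theorem finite_of_cubes' {G : Type u} [Group G] (hG : ∀ x : G, IsOfFinOrder x) {B : ℕ}
    (hB : ∀ F : Subgroup G, (F : Set G).Finite → Nat.card F ≤ B) {n : ℕ}
    (T : Subgroup G) (hT : Nat.card T = 2 ^ n) (w : G) (hw : ∀ t ∈ T, w * t * w⁻¹ ∈ T)
    (hcube : ∀ c : G, (∀ t ∈ T, t * c = c * t) → ∃ k : ℕ, ((c * w) ^ 3) ^ 2 ^ k = 1) :
    Finite G := by
  classical
  let P : ℕ → Prop := fun n => ∃ (T : Subgroup G) (w : G), Nat.card T = 2 ^ n ∧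
    (∀ t ∈ T, w * t * w⁻¹ ∈ T) ∧
    ∀ c : G, (∀ t ∈ T, t * c = c * t) → ∃ k : ℕ, ((c * w) ^ 3) ^ 2 ^ k = 1
  have hmax : ∃ n, P n ∧ ∀ m, P m → m ≤ n := by
    have hb : ∀ m, P m → m ≤ B := by
      rintro m ⟨S, _, hS, _⟩
      have hSf : Finite S := Nat.finite_of_card_ne_zero (by rw [hS]; positivity)
      have h1 := hB S (Set.toFinite _)
      rw [hS] at h1
      exact (Nat.lt_two_pow_self).le.trans h1
    refine ⟨Nat.findGreatest P B, ?_, fun m hm => Nat.le_findGreatest (hb m hm) hm⟩
    exact Nat.findGreatest_spec (hb n ⟨T, w, hT, hw, hcube⟩) ⟨T, w, hT, hw, hcube⟩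
  clear hT hw hcube
  obtain ⟨m, ⟨T, w, hT, hw, hcube⟩, hm⟩ := hmax
  have hTf : Finite T := Nat.finite_of_card_ne_zero (by rw [hT]; positivity)
  refine finite_of_cubes hG hB T hT w hw ?_
  intro c hc
  set y := c * w with hy
  have hyT : ∀ t ∈ T, y * t * y⁻¹ ∈ T := conj_mem_of_commute T hw hc
  have hyN := mem_normalizer_of_conj_mem T y hyT
  obtain ⟨F, hFf, hTF, hyF⟩ := exists_finite_sup T y (hG y) hyN
  set T' : Subgroup G := T ⊔ Subgroup.zpowers (y ^ 3) with hT'
  have hT'F : T' ≤ F := by
    rw [hT', sup_le_iff]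
    exact ⟨hTF, by rw [Subgroup.zpowers_le]; exact F.pow_mem hyF 3⟩
  have hT'f : Finite T' := Finite.of_injective _ (Subgroup.inclusion_injective hT'F)
  have hTp : IsPGroup 2 T := IsPGroup.of_card hT
  have hzp : IsPGroup 2 (Subgroup.zpowers (y ^ 3)) := by
    rintro ⟨_, k, rfl⟩
    obtain ⟨l, hl⟩ := hcube c hc
    refine ⟨l, Subtype.ext ?_⟩
    change ((y ^ 3) ^ k) ^ 2 ^ l = 1
    rw [← zpow_natCast, ← zpow_mul, mul_comm, zpow_mul, zpow_natCast, hl, one_zpow]
  have hT'p : IsPGroup 2 T' := by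
    refine IsPGroup.to_sup_of_normal_left' hTp hzp ?_
    rw [Subgroup.zpowers_le]
    exact Subgroup.pow_mem _ hyN 3
  obtain ⟨m', hm'⟩ := IsPGroup.iff_card.1 hT'p
  have hcov : P m' := by
    refine ⟨T', y, hm', ?_, ?_⟩
    · intro t ht
      have h1 : T' ≤ T'.map (MulAut.conj y).symm.toMonoidHom := by
        rw [hT', Subgroup.map_sup, sup_le_iff]
        constructor
        · refine le_trans ?_ le_sup_left
          intro s hs
          exact ⟨y * s * y⁻¹, hyT s hs, by
            change y⁻¹ * (y * s * y⁻¹) * y = s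
            group⟩
        · refine le_trans ?_ le_sup_right
          rw [Subgroup.zpowers_le]
          refine ⟨y ^ 3, Subgroup.mem_zpowers _, ?_⟩
          change y⁻¹ * y ^ 3 * y = y ^ 3
          group
      obtain ⟨s, hs, hst⟩ := h1 ht
      have hst' : y⁻¹ * s * y = t := hst
      rw [← hst']
      have : y * (y⁻¹ * s * y) * y⁻¹ = s := by group
      rwa [this]
    · intro c' hc'
      have h1 : ∀ t ∈ T, t * (c' * c) = c' * c * t := by
        intro t ht
        have h2 := hc' t ((le_sup_left : T ≤ T') ht)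
        calc t * (c' * c) = (t * c') * c := by group
          _ = c' * (t * c) := by rw [h2]; group
          _ = c' * c * t := by rw [hc t ht]; group
      have h3 := hcube (c' * c) h1
      rwa [mul_assoc] at h3
  have h4 := hm m' hcov
  have h5 : T = T' := by
    refine Subgroup.eq_of_le_of_card_ge le_sup_left ?_
    rw [hm', hT]
    exact Nat.pow_le_pow_right (by norm_num) h4
  rw [h5]
  exact (le_sup_right : Subgroup.zpowers (y ^ 3) ≤ T') (Subgroup.mem_zpowers _)

theorem main {n : ℕ} (H : Fin n → Type v) [∀ i, Group (H i)] (hfin : ∀ i, Finite (H i))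
    (hloc : ∀ J : Set (Fin n), J.Nonempty → ∃ i ∈ J, ∃ (T : Subgroup (H i)) (w : H i),
      IsPGroup 2 T ∧ (∀ t ∈ T, w * t * w⁻¹ ∈ T) ∧
      ∀ j ∈ J, ∀ f : T →* H j, Function.Injective f → ∀ y : H j,
        (∀ s t : T, w * s = t * w → y * f s = f t * y) → ∃ k : ℕ, (y ^ 3) ^ 2 ^ k = 1)
    (G : Type u) [Group G] (hG : ∀ x : G, IsOfFinOrder x)
    (hsat : ∀ K : Subgroup G, Finite K →
      ∃ L : Subgroup G, K ≤ L ∧ ∃ i, Nonempty (L ≃* H i)) :
    ∃ i, Nonempty (G ≃* H i) := by
  classical
  by_cases hinf : Finite G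
  · obtain ⟨L, hL, i, ⟨e⟩⟩ := hsat ⊤ inferInstance
    have hLt : L = ⊤ := top_le_iff.1 hL
    subst hLt
    exact ⟨i, ⟨Subgroup.topEquiv.symm.trans e⟩⟩
  exfalso
  set B : ℕ := ∑ i, Nat.card (H i) with hBdef
  have hB : ∀ F : Subgroup G, (F : Set G).Finite → Nat.card F ≤ B := by
    intro F hF
    have hF' : Finite F := hF.to_subtype
    obtain ⟨L, hL, i, ⟨e⟩⟩ := hsat F hF'
    have := hfin i
    have hLf : Finite L := Finite.of_equiv _ e.symm.toEquiv
    calc Nat.card F ≤ Nat.card L := Nat.card_le_card_of_injective _ (Subgroup.inclusion_injective hL)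
      _ = Nat.card (H i) := Nat.card_congr e.toEquiv
      _ ≤ B := Finset.single_le_sum (f := fun i => Nat.card (H i)) (fun _ _ => Nat.zero_le _)
        (Finset.mem_univ i)
  -- the members of the family that occur in `G`
  obtain ⟨i, ⟨L, ⟨e⟩⟩, T0, w0, hT0, hw0, hcond⟩ :=
    hloc {j | ∃ L : Subgroup G, Nonempty (L ≃* H j)} (by
      obtain ⟨L, -, i, he⟩ := hsat ⊥ inferInstance
      exact ⟨i, L, he⟩)
  have hfi := hfin i
  -- the corresponding data in `G`
  let T : Subgroup G := (T0.comap e.toMonoidHom).map L.subtype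
  let w : G := (e.symm w0 : L)
  have hTmem : ∀ t : T0, ((e.symm (t : H i) : L) : G) ∈ T := by
    intro t
    refine ⟨e.symm t, ?_, rfl⟩
    change e (e.symm (t : H i)) ∈ T0
    rw [e.apply_symm_apply]
    exact t.2
  have hTmem' : ∀ g ∈ T, ∃ t : T0, ((e.symm (t : H i) : L) : G) = g := by
    rintro _ ⟨x, hx, rfl⟩
    refine ⟨⟨e x, hx⟩, ?_⟩
    change ((e.symm (e x) : L) : G) = x
    rw [e.symm_apply_apply]
  obtain ⟨k, hk⟩ := IsPGroup.iff_card.1 hT0
  have hTcard : Nat.card T = 2 ^ k := by
    rw [← hk, ← Nat.card_congr ((T0.comap e.toMonoidHom).equivMapOfInjective L.subtype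
      L.subtype_injective).toEquiv]
    exact Nat.card_congr (e.toEquiv.subtypeEquiv (fun x => Iff.rfl))
  have hTfin : Finite T := Nat.finite_of_card_ne_zero (by rw [hTcard]; positivity)
  have hwT : ∀ t ∈ T, w * t * w⁻¹ ∈ T := by
    intro t ht
    obtain ⟨t0, rfl⟩ := hTmem' t ht
    have h1 := hTmem ⟨w0 * t0 * w0⁻¹, hw0 t0 t0.2⟩
    have h2 : ((e.symm (w0 * (t0 : H i) * w0⁻¹) : L) : G) =
        w * ((e.symm (t0 : H i) : L) : G) * w⁻¹ := by
      rw [map_mul, map_mul, map_inv]
      rfl
    rwa [← h2]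
  refine hinf (finite_of_cubes' hG hB T hTcard w hwT ?_)
  intro c hc
  -- the finite subgroup generated by `T` and `c w`
  obtain ⟨F, hFf, hTF, hyF⟩ := exists_finite_sup T (c * w) (hG _)
    (mem_normalizer_of_conj_mem T _ (conj_mem_of_commute T hwT hc))
  obtain ⟨L', hFL', j, ⟨e'⟩⟩ := hsat F hFf
  have hTL' : ∀ t : T0, ((e.symm (t : H i) : L) : G) ∈ L' := fun t => hFL' (hTF (hTmem t))
  let f : T0 →* H j :=
    { toFun := fun t => e' ⟨_, hTL' t⟩
      map_one' := by
        have : (⟨((e.symm ((1 : T0) : H i) : L) : G), hTL' 1⟩ : L') = 1 := by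
          apply Subtype.ext
          simp
        rw [this, map_one]
      map_mul' := fun s t => by
        rw [← map_mul]
        congr 1
        apply Subtype.ext
        simp }
  have hf : Function.Injective f := by
    intro s t hst
    have h1 := e'.injective hst
    have h2 := congrArg Subtype.val h1
    have h3 : e.symm (s : H i) = e.symm (t : H i) := Subtype.ext h2
    exact Subtype.ext (e.symm.injective h3)
  have hyL' : c * w ∈ L' := hFL' hyF
  have key := hcond j ⟨L', ⟨e'⟩⟩ f hf (e' ⟨c * w, hyL'⟩) (by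
    intro s t hst
    change e' ⟨c * w, hyL'⟩ * e' ⟨_, hTL' s⟩ = e' ⟨_, hTL' t⟩ * e' ⟨c * w, hyL'⟩
    rw [← map_mul, ← map_mul]
    congr 1
    apply Subtype.ext
    change c * w * ((e.symm (s : H i) : L) : G) = ((e.symm (t : H i) : L) : G) * (c * w)
    have h1 : w * ((e.symm (s : H i) : L) : G) = ((e.symm (t : H i) : L) : G) * w := by
      have := congrArg (fun z => ((e.symm z : L) : G)) hst
      simpa [w] using this
    have h2 := hc _ (hTmem t)
    calc c * w * ((e.symm (s : H i) : L) : G) = c * (w * ((e.symm (s : H i) : L) : G)) := by group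
      _ = c * ((e.symm (t : H i) : L) : G) * w := by rw [h1]; group
      _ = ((e.symm (t : H i) : L) : G) * (c * w) := by rw [← h2]; group)
  obtain ⟨k, hk⟩ := key
  refine ⟨k, ?_⟩
  have h1 : e' ((⟨c * w, hyL'⟩ ^ 3) ^ 2 ^ k) = e' 1 := by
    rw [map_pow, map_pow, map_one]; exact hk
  have h2 := congrArg Subtype.val (e'.injective h1)
  simpa using h2

end Pool.Agent.Lib.MP_558536_al
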